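import Pool.Agent.Helper58.SU.StP
import Pool.Agent.Helper16.GK.M_WIN

/-!
# Project SU (MP_b454d1_nt), module MED: medium arcs
-/

set_option autoImplicit false

namespace Pool.Agent.Helper84.SU

open Finset ArithmeticFunction MeasureTheory
open Pool.Agent.Helper48.BK (ex th Sx Apx)
open Pool.Agent.Helper15.AB (IsW)
open Pool.Agent.Helper23.GK
open Pool.Agent.Helper58.SU
open Pool.Agent.Helper16.GK.WIN (bb bb_le gw_eq cl_lip)

namespace MED

theorem norm_ex (t : ℝ) : ‖ex t‖ = 1 := by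
  unfold ex
  rw [show (2 * (Real.pi : ℂ) * t * Complex.I) = ((2 * Real.pi * t : ℝ) : ℂ) * Complex.I by
    push_cast; ring]
  exact Complex.norm_exp_ofReal_mul_I _

/-- one window with a phase -/
theorem one_win (w : ℝ → ℝ) (hw : IsW w) (M : ℝ) (hM0 : 0 ≤ M)
    (hM : ∀ s t : ℝ, s ≤ t → |w s - w t| ≤ M * (t - s)) (X y q u h : ℕ) (R G : ℝ)
    (e : ℕ → ℂ) (he : ∀ n, ‖e n‖ ≤ 1) (hX : 1 ≤ X) (hy : 1 ≤ y)
    (hG : ∀ m : ℕ, 1 ≤ m → m ≤ y + h → Real.log m + 1 ≤ G)
    (hlow : (0.001 : ℝ) ≤ w (Real.log ((y : ℝ) / X)))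
    (hsh : ‖∑ m ∈ Ioc y (y + h), ((gw w X q u m / m : ℝ) : ℂ) * e m‖ ≤ R) :
    ‖∑ m ∈ Ioc y (y + h), (bb q u m : ℂ) * e m‖ ≤
      1000 * (y * R + (h : ℝ) ^ 2 / y * G * (1 + M)) := by
  have hXr : (1 : ℝ) ≤ X := by exact_mod_cast hX
  have hyr : (1 : ℝ) ≤ y := by exact_mod_cast hy
  set W0 := w (Real.log ((y : ℝ) / X)) with hW0
  have hG0 : 0 ≤ G := by
    have := hG 1 le_rfl (by omega)
    rw [Nat.cast_one, Real.log_one] at this
    linarith
  have key : (W0 : ℂ) * ∑ m ∈ Ioc y (y + h), (bb q u m : ℂ) * e m =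
      (y : ℂ) * ∑ m ∈ Ioc y (y + h), ((gw w X q u m / m : ℝ) : ℂ) * e m +
      ∑ m ∈ Ioc y (y + h), ((gw w X q u m * (((m : ℝ) - y) / m) +
        (W0 - w (Real.log ((m : ℝ) / X))) * bb q u m : ℝ) : ℂ) * e m := by
    rw [Finset.mul_sum, Finset.mul_sum, ← Finset.sum_add_distrib]
    apply Finset.sum_congr rfl
    intro m hm
    rw [Finset.mem_Ioc] at hm
    have hm0 : (m : ℝ) ≠ 0 := by
      have : m ≠ 0 := by omega
      exact_mod_cast this
    have h1 : W0 * bb q u m = y * (gw w X q u m / m) + (gw w X q u m * (((m : ℝ) - y) / m) +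
        (W0 - w (Real.log ((m : ℝ) / X))) * bb q u m) := by
      rw [gw_eq]
      field_simp
      ring
    have h2 : ((W0 * bb q u m : ℝ) : ℂ) = ((y * (gw w X q u m / m) + (gw w X q u m *
        (((m : ℝ) - y) / m) + (W0 - w (Real.log ((m : ℝ) / X))) * bb q u m) : ℝ) : ℂ) :=
      congrArg (fun r : ℝ => (r : ℂ)) h1
    rw [Complex.ofReal_mul, Complex.ofReal_add, Complex.ofReal_mul] at h2
    rw [← mul_assoc, h2, Complex.ofReal_natCast]
    ring
  have h2 : ‖∑ m ∈ Ioc y (y + h), ((gw w X q u m * (((m : ℝ) - y) / m) +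
        (W0 - w (Real.log ((m : ℝ) / X))) * bb q u m : ℝ) : ℂ) * e m‖ ≤
        (h : ℝ) * ((h : ℝ) / y * G * (1 + M)) := by
    have h7 : ∀ m ∈ Ioc y (y + h), ‖((gw w X q u m * (((m : ℝ) - y) / m) +
        (W0 - w (Real.log ((m : ℝ) / X))) * bb q u m : ℝ) : ℂ) * e m‖ ≤
        (h : ℝ) / y * G * (1 + M) := by
      intro m hm
      rw [Finset.mem_Ioc] at hm
      have hmn : (y : ℝ) < m := by exact_mod_cast hm.1
      have hmn2 : (m : ℝ) ≤ y + h := by exact_mod_cast hm.2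
      have hN0 : (0 : ℝ) < y := by linarith
      have hm0 : (0 : ℝ) < m := by linarith
      have hX0' : (0 : ℝ) < X := by linarith
      have hh0 : (0 : ℝ) ≤ h := Nat.cast_nonneg h
      have hb : |bb q u m| ≤ G := (bb_le q u m).trans (hG m (by omega) (by omega))
      have hg : |gw w X q u m| ≤ G := by
        rw [gw_eq, abs_mul, abs_of_nonneg (hw.nonneg _)]
        calc w (Real.log ((m : ℝ) / X)) * |bb q u m| ≤ 1 * |bb q u m| :=
              mul_le_mul_of_nonneg_right (hw.le_one _) (abs_nonneg _)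
          _ ≤ G := by linarith
      have hHX0 : (0 : ℝ) ≤ (h : ℝ) / y := by positivity
      have h9 : ((m : ℝ) - y) / m ≤ (h : ℝ) / y := by
        apply div_le_div₀ (by positivity) (by linarith) (by linarith) (by linarith)
      have h9' : ((m : ℝ) - y) / y ≤ (h : ℝ) / y := by
        apply div_le_div₀ (by positivity) (by linarith) (by linarith) (by linarith)
      have h10 : 0 ≤ ((m : ℝ) - y) / m := by apply div_nonneg <;> linarith
      have h11 : Real.log ((m : ℝ) / X) - Real.log ((y : ℝ) / X) ≤ (h : ℝ) / y := by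
        rw [← Real.log_div (by positivity) (by positivity)]
        have h12 : ((m : ℝ) / X) / ((y : ℝ) / X) = m / y := by
          have : (X : ℝ) ≠ 0 := by linarith
          field_simp
        rw [h12]
        have h13 := Real.log_le_sub_one_of_pos (x := (m : ℝ) / y) (by positivity)
        have h14 : (m : ℝ) / y - 1 = ((m : ℝ) - y) / y := by field_simp
        linarith
      have h15 : |W0 - w (Real.log ((m : ℝ) / X))| ≤ M * ((h : ℝ) / y) := by
        refine (hM _ _ ?_).trans (mul_le_mul_of_nonneg_left h11 hM0)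
        apply Real.log_le_log (by positivity)
        apply div_le_div_of_nonneg_right hmn.le (by linarith)
      rw [norm_mul, Complex.norm_real, Real.norm_eq_abs]
      calc |gw w X q u m * (((m : ℝ) - y) / m) + (W0 - w (Real.log ((m : ℝ) / X))) * bb q u m| *
            ‖e m‖
          ≤ |gw w X q u m * (((m : ℝ) - y) / m) +
            (W0 - w (Real.log ((m : ℝ) / X))) * bb q u m| * 1 :=
            mul_le_mul_of_nonneg_left (he m) (abs_nonneg _)
        _ ≤ |gw w X q u m| * (((m : ℝ) - y) / m) +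
            |W0 - w (Real.log ((m : ℝ) / X))| * |bb q u m| := by
            rw [mul_one]
            refine (abs_add_le _ _).trans ?_
            rw [abs_mul, abs_mul, abs_of_nonneg h10]
        _ ≤ G * ((h : ℝ) / y) + M * ((h : ℝ) / y) * G :=
            add_le_add (mul_le_mul hg h9 h10 hG0) (mul_le_mul h15 hb (abs_nonneg _) (by positivity))
        _ = _ := by ring
    refine (norm_sum_le _ _).trans ((Finset.sum_le_sum h7).trans (le_of_eq ?_))
    rw [Finset.sum_const, Nat.card_Ioc, nsmul_eq_mul, Nat.add_sub_cancel_left]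
  have h3 : ‖(W0 : ℂ) * ∑ m ∈ Ioc y (y + h), (bb q u m : ℂ) * e m‖ ≤
      y * R + (h : ℝ) ^ 2 / y * G * (1 + M) := by
    rw [key]
    refine (norm_add_le _ _).trans ?_
    rw [norm_mul, Complex.norm_natCast]
    have h4 : (y : ℝ) * ‖∑ m ∈ Ioc y (y + h), ((gw w X q u m / m : ℝ) : ℂ) * e m‖ ≤ y * R :=
      mul_le_mul_of_nonneg_left hsh (by linarith)
    have h5 : (h : ℝ) * ((h : ℝ) / y * G * (1 + M)) = (h : ℝ) ^ 2 / y * G * (1 + M) := by ring
    linarith
  rw [norm_mul, Complex.norm_real, Real.norm_eq_abs,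
    abs_of_nonneg (by linarith : (0:ℝ) ≤ W0)] at h3
  have h6 : (0.001 : ℝ) * ‖∑ m ∈ Ioc y (y + h), (bb q u m : ℂ) * e m‖ ≤
      W0 * ‖∑ m ∈ Ioc y (y + h), (bb q u m : ℂ) * e m‖ :=
    mul_le_mul_of_nonneg_right hlow (norm_nonneg _)
  linarith

/-- the target sum -/
theorem disc (q u y h : ℕ) (e : ℕ → ℂ) :
    ∑ n ∈ (Ioc y (y + h)).filter (fun n => n ≡ u [MOD q]), (th n : ℂ) * e n -
    (((if Nat.Coprime u q then 1 / (Nat.totient q : ℝ) else 0) : ℝ) : ℂ) *
      ∑ n ∈ Ioc y (y + h), e n =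
    ∑ m ∈ Ioc y (y + h), (bb q u m : ℂ) * e m -
      ∑ m ∈ (Ioc y (y + h)).filter (fun m => m ≡ u [MOD q]), ((Λ m - th m : ℝ) : ℂ) * e m := by
  have h1 : ∀ m, (bb q u m : ℂ) * e m = (if m ≡ u [MOD q] then ((Λ m : ℝ) : ℂ) * e m else 0) -
      (((if Nat.Coprime u q then 1 / (Nat.totient q : ℝ) else 0) : ℝ) : ℂ) * e m := by
    intro m
    unfold bb
    rw [Complex.ofReal_sub, sub_mul]
    congr 1
    split_ifs <;> simp
  simp only [h1]
  rw [Finset.sum_sub_distrib, ← Finset.sum_filter, ← Finset.mul_sum]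
  have h2 : ∑ m ∈ (Ioc y (y + h)).filter (fun m => m ≡ u [MOD q]), ((Λ m - th m : ℝ) : ℂ) * e m =
      ∑ m ∈ (Ioc y (y + h)).filter (fun m => m ≡ u [MOD q]), ((Λ m : ℝ) : ℂ) * e m -
      ∑ m ∈ (Ioc y (y + h)).filter (fun m => m ≡ u [MOD q]), (th m : ℂ) * e m := by
    rw [← Finset.sum_sub_distrib]
    apply Finset.sum_congr rfl
    intro m _
    push_cast
    ring
  rw [h2]
  ring

/-- powers of the logarithm -/
theorem ev_pow (K : ℝ) (n : ℕ) (r : ℝ) (hr : 0 < r) :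
    ∀ᶠ y : ℕ in Filter.atTop, K * Real.log y ^ n ≤ (y : ℝ) ^ r := by
  have h1 := (isLittleO_log_rpow_rpow_atTop (n : ℝ) hr).bound
    (c := 1 / (|K| + 1)) (by positivity)
  have h2 : ∀ᶠ x : ℝ in Filter.atTop, K * Real.log x ^ n ≤ x ^ r := by
    filter_upwards [h1, Filter.eventually_ge_atTop 1] with x hx hx1
    have hl : 0 ≤ Real.log x := Real.log_nonneg hx1
    rw [Real.rpow_natCast, Real.norm_of_nonneg (pow_nonneg hl _),
      Real.norm_of_nonneg (Real.rpow_nonneg (by linarith) _)] at hx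
    have h3 : (|K| + 1) * Real.log x ^ n ≤ x ^ r := by
      have h4 := mul_le_mul_of_nonneg_left hx (by positivity : 0 ≤ |K| + 1)
      rw [← mul_assoc, mul_one_div_cancel (by positivity), one_mul] at h4
      exact h4
    have h5 : K * Real.log x ^ n ≤ (|K| + 1) * Real.log x ^ n :=
      mul_le_mul_of_nonneg_right (by linarith [le_abs_self K]) (pow_nonneg hl _)
    exact h5.trans h3
  exact tendsto_natCast_atTop_atTop.eventually h2

/-- the final inequality -/
theorem fin (A : ℕ) (η η' M Ct x h L G lg : ℝ) (hη : 4 / 5 < η) (hM : 0 ≤ M) (hCt : 0 < Ct)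
    (hx : 1 ≤ x) (hL : 55 ≤ L) (hh1 : x ^ η ≤ h) (hh2 : h ≤ x ^ η') (hG : G ≤ 2 * L)
    (hG0 : 0 ≤ G) (hlg : lg ≤ 2 * L) (hlg0 : 0 ≤ lg)
    (e1 : (6000 * (1 + M)) * L ^ (A + 1) ≤ x ^ (1 - η'))
    (e2 : (24 * Ct) * L ^ (A + 2) ≤ x ^ (3 / 10 : ℝ)) :
    1000 * (x * (h / x / L ^ (A + 2)) + h ^ 2 / x * G * (1 + M)) + Ct * √(2 * x) * lg ^ 2 ≤
      h / L ^ A := by
  have hx0 : 0 < x := by linarith
  have hL0 : 0 < L := by linarith
  have hP : 0 < L ^ A := pow_pos hL0 A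
  have hh0 : 0 < h := lt_of_lt_of_le (Real.rpow_pos_of_pos hx0 _) hh1
  have t1 : 1000 * (x * (h / x / L ^ (A + 2))) ≤ (1 / 3) * (h / L ^ A) := by
    have h1 : x * (h / x / L ^ (A + 2)) = (h / L ^ A) * (1 / L ^ 2) := by
      rw [pow_add]; field_simp
    rw [h1]
    have h2 : 1000 * (1 / L ^ 2) ≤ 1 / 3 := by
      rw [mul_one_div, div_le_div_iff₀ (by positivity) (by norm_num)]
      nlinarith
    have h3 : 0 ≤ h / L ^ A := by positivity
    nlinarith
  have t2 : 1000 * (h ^ 2 / x * G * (1 + M)) ≤ (1 / 3) * (h / L ^ A) := by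
    have h1 : h / x * x ^ (1 - η') ≤ 1 := by
      have h2 : x ^ (1 - η') = x / x ^ η' := by
        rw [Real.rpow_sub hx0, Real.rpow_one]
      rw [h2]
      have h3 : 0 < x ^ η' := Real.rpow_pos_of_pos hx0 _
      have h4 : h / x * (x / x ^ η') = h / x ^ η' := by field_simp
      rw [h4, div_le_one h3]
      exact hh2
    have h5 : h / x * ((6000 * (1 + M)) * L ^ (A + 1)) ≤ 1 :=
      (mul_le_mul_of_nonneg_left e1 (by positivity)).trans h1
    have h6 : 1000 * (h ^ 2 / x * G * (1 + M)) ≤ 1000 * (h ^ 2 / x * (2 * L) * (1 + M)) := by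
      apply mul_le_mul_of_nonneg_left _ (by norm_num)
      apply mul_le_mul_of_nonneg_right _ (by linarith)
      apply mul_le_mul_of_nonneg_left hG (by positivity)
    refine h6.trans ?_
    have h7 : 1000 * (h ^ 2 / x * (2 * L) * (1 + M)) =
        (1 / 3) * (h / L ^ A) * (h / x * ((6000 * (1 + M)) * L ^ (A + 1))) := by
      rw [pow_succ]; field_simp; ring
    rw [h7]
    have h8 : 0 ≤ (1 / 3) * (h / L ^ A) := by positivity
    calc (1 / 3) * (h / L ^ A) * (h / x * ((6000 * (1 + M)) * L ^ (A + 1)))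
        ≤ (1 / 3) * (h / L ^ A) * 1 := mul_le_mul_of_nonneg_left h5 h8
      _ = _ := mul_one _
  have t3 : Ct * √(2 * x) * lg ^ 2 ≤ (1 / 3) * (h / L ^ A) := by
    have h1 : √(2 * x) ≤ 2 * √x := by
      have : 2 * √x = √(4 * x) := by
        rw [Real.sqrt_mul (by norm_num), show (4 : ℝ) = 2 ^ 2 by norm_num,
          Real.sqrt_sq (by norm_num)]
      rw [this]
      apply Real.sqrt_le_sqrt
      linarith
    have h2 : lg ^ 2 ≤ (2 * L) ^ 2 := pow_le_pow_left₀ hlg0 hlg 2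
    have h3 : Ct * √(2 * x) * lg ^ 2 ≤ Ct * (2 * √x) * (2 * L) ^ 2 := by
      apply mul_le_mul _ h2 (by positivity) (by positivity)
      exact mul_le_mul_of_nonneg_left h1 hCt.le
    refine h3.trans ?_
    have h4 : √x * x ^ (3 / 10 : ℝ) = x ^ (4 / 5 : ℝ) := by
      rw [Real.sqrt_eq_rpow, ← Real.rpow_add hx0]
      norm_num
    have h5 : x ^ (4 / 5 : ℝ) ≤ x ^ η := Real.rpow_le_rpow_of_exponent_le hx hη.le
    have h6 : √x * ((24 * Ct) * L ^ (A + 2)) ≤ h := by
      refine (mul_le_mul_of_nonneg_left e2 (Real.sqrt_nonneg x)).trans ?_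
      rw [h4]
      exact h5.trans hh1
    have h7 : Ct * (2 * √x) * (2 * L) ^ 2 =
        (1 / 3) * ((√x * ((24 * Ct) * L ^ (A + 2))) / L ^ A) := by
      rw [pow_add]; field_simp; ring
    rw [h7]
    apply mul_le_mul_of_nonneg_left _ (by norm_num)
    exact div_le_div_of_nonneg_right h6 hP.le
  linarith

end MED

open MED Filter in
theorem hMED (hMw : StMw) : StMed := by
  intro η η' h1 h2 h3 A B B'
  obtain ⟨w, hw⟩ := Pool.Agent.Helper15.AB.hWE
  obtain ⟨M, hM0, hM⟩ := Pool.Agent.Helper15.AB.hT1.exists_lip w hw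
  obtain ⟨hth, Ct, hCt, hth2⟩ := Pool.Agent.Helper48.BK.hTh
  obtain ⟨y1, hy1⟩ := hMw η η' h1 h2 h3 w hw (A + 2) B B'
  have hM' : ∀ s t : ℝ, s ≤ t → |w s - w t| ≤ M * (t - s) := fun s t hst =>
    (hM s t hst).trans (mul_le_mul_of_nonneg_left (cl_lip s t hst) hM0)
  have hlog : Tendsto (fun X : ℕ => Real.log X) atTop atTop :=
    Real.tendsto_log_atTop.comp tendsto_natCast_atTop_atTop
  obtain ⟨y0, hy0⟩ := eventually_atTop.1 ((eventually_ge_atTop (y1 + 100)).and
    ((hlog.eventually_ge_atTop 55).and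
      ((ev_pow (6000 * (1 + M)) (A + 1) (1 - η') (by linarith)).and
        (ev_pow (24 * Ct) (A + 2) (3 / 10) (by norm_num)))))
  refine ⟨y0, fun y h q u hyy hh1 hh2 hq hqB β hβ => ?_⟩
  obtain ⟨f1, f2, f3, f4⟩ := hy0 y hyy
  have hyr : (100 : ℝ) ≤ y := by exact_mod_cast (by omega : 100 ≤ y)
  have hhy : (h : ℝ) ≤ y := by
    refine hh2.trans ?_
    calc (y : ℝ) ^ η' ≤ (y : ℝ) ^ (1 : ℝ) :=
          Real.rpow_le_rpow_of_exponent_le (by linarith) h3.le
      _ = y := Real.rpow_one _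
  have hhy' : h ≤ y := by exact_mod_cast hhy
  have hmw := hy1 y h q u (by omega) hh1 hh2 hq hqB β hβ
  set X : ℕ := y / 2 with hX
  have hX1 : 2 * X ≤ y := by omega
  have hX2 : y ≤ 2 * X + 1 := by omega
  have hX1r : 2 * (X : ℝ) ≤ y := by exact_mod_cast hX1
  have hX2r : (y : ℝ) ≤ 2 * X + 1 := by exact_mod_cast hX2
  have hXpos : (0 : ℝ) < X := by linarith
  set L := Real.log (y : ℝ) with hL
  have hl2 : Real.log (2 * (y : ℝ)) ≤ L + 1 := by
    rw [Real.log_mul (by norm_num) (by linarith)]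
    have : Real.log 2 ≤ 1 := by
      have := Real.log_two_lt_d9
      linarith
    linarith
  have hl20 : 0 ≤ Real.log (2 * (y : ℝ)) := Real.log_nonneg (by linarith)
  have hen : Real.exp (0.1 : ℝ) ≤ 2 := by
    have h3 : (1 : ℝ) - 0.1 ≤ Real.exp (-0.1) := Real.one_sub_le_exp_neg 0.1
    have h4 : Real.exp (0.1 : ℝ) * Real.exp (-0.1) = 1 := by rw [← Real.exp_add]; norm_num
    nlinarith [Real.exp_pos (0.1 : ℝ)]
  have hep : (2.4 : ℝ) ≤ Real.exp 0.9 := by
    have h3 : (1 : ℝ) - 0.1 ≤ Real.exp (-0.1) := Real.one_sub_le_exp_neg 0.1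
    have h4 : Real.exp (0.9 : ℝ) = Real.exp 1 * Real.exp (-0.1) := by rw [← Real.exp_add]; norm_num
    have h5 := Real.exp_one_gt_d9
    rw [h4]
    nlinarith
  have hlow : (0.001 : ℝ) ≤ w (Real.log ((y : ℝ) / X)) := by
    apply hw.lower
    constructor
    · rw [Real.le_log_iff_exp_le (by positivity), le_div_iff₀ hXpos]
      nlinarith
    · rw [Real.log_le_iff_le_exp (by positivity), div_le_iff₀ hXpos]
      nlinarith
  have hone := one_win w hw M hM0 hM' X y q u h ((h : ℝ) / y / L ^ (A + 2))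
    (Real.log (2 * (y : ℝ)) + 1) (fun n => ex (n * β)) (fun n => (norm_ex _).le) (by omega)
    (by omega) (by
      intro m hm1 hm2
      have hm1' : (1 : ℝ) ≤ m := by exact_mod_cast hm1
      have hm2' : (m : ℝ) ≤ y + h := by exact_mod_cast hm2
      have := Real.log_le_log (by linarith : (0 : ℝ) < m) (by linarith : (m : ℝ) ≤ 2 * y)
      linarith) hlow hmw
  -- prime powers
  have hpp : ‖∑ m ∈ (Ioc y (y + h)).filter (fun m => m ≡ u [MOD q]),
      ((Λ m - th m : ℝ) : ℂ) * ex (m * β)‖ ≤ Ct * √(2 * (y : ℝ)) * Real.log (2 * (y : ℝ)) ^ 2 := by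
    have h0 : ∀ n, 0 ≤ Λ n - th n := fun n => by linarith [(hth n).2.1]
    refine (norm_sum_le _ _).trans ?_
    have h5 : ∑ m ∈ (Ioc y (y + h)).filter (fun m => m ≡ u [MOD q]),
        ‖((Λ m - th m : ℝ) : ℂ) * ex (m * β)‖ =
        ∑ m ∈ (Ioc y (y + h)).filter (fun m => m ≡ u [MOD q]), (Λ m - th m) := by
      apply Finset.sum_congr rfl
      intro m _
      rw [norm_mul, norm_ex, mul_one, Complex.norm_real, Real.norm_of_nonneg (h0 m)]
    rw [h5]
    have h6 := hth2 (2 * y) (by omega)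
    push_cast at h6
    refine le_trans ?_ h6
    apply Finset.sum_le_sum_of_subset_of_nonneg
    · intro m hm
      rw [Finset.mem_filter, Finset.mem_Ioc] at hm
      rw [Finset.mem_Ioc]
      omega
    · intro m _ _
      exact h0 m
  have hdisc := disc q u y h (fun n => ex (n * β))
  have hfin := fin A η η' M Ct y h L (Real.log (2 * (y : ℝ)) + 1) (Real.log (2 * (y : ℝ))) h1 hM0
    hCt (by linarith) f2 hh1 hh2 (by linarith) (by linarith) (by linarith) hl20 f3 f4
  refine le_trans ?_ hfin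
  have hgoal : ‖∑ n ∈ (Ioc y (y + h)).filter (fun n => n ≡ u [MOD q]), (th n : ℂ) * ex (n * β) -
    (((if Nat.Coprime u q then 1 / (Nat.totient q : ℝ) else 0) : ℝ) : ℂ) *
      ∑ n ∈ Ioc y (y + h), ex (n * β)‖ ≤
      1000 * (y * ((h : ℝ) / y / L ^ (A + 2)) +
        (h : ℝ) ^ 2 / y * (Real.log (2 * (y : ℝ)) + 1) * (1 + M)) +
        Ct * √(2 * (y : ℝ)) * Real.log (2 * (y : ℝ)) ^ 2 := by
    rw [hdisc]
    exact (norm_sub_le _ _).trans (add_le_add hone hpp)
  convert hgoal using 6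

end Pool.Agent.Helper84.SU
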